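import Pool.Agent.helper55.ZI.Spec2

/-! Row ONE of project ZI. -/

set_option autoImplicit false

namespace Pool.Agent.helper12.ZI

open Pool.Agent.ZI

universe u

theorem ONE_ann {R : Type u} [Ring R] (c : R) (M : Type u) [AddCommGroup M] [Module R M]
    (x : Fin 1 → M) : (annPP c).Holds M x ↔ c • x 0 = 0 := by
  unfold PP.Holds annPP
  constructor
  · rintro ⟨y, hy⟩
    have := hy 0
    simpa using this
  · intro h
    refine ⟨fun l => l.elim0, fun i => ?_⟩
    simpa using h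

theorem ONE_two {R : Type u} [Ring R] (Y : ModuleCat.{u} R → Prop) : (VanIdeal Y).IsTwoSided :=
  ⟨fun b ha N hN x => by rw [mul_smul]; exact ha N hN _⟩

theorem ONE_key (hPUR : PUR_stmt.{u}) (hPNT : PNT_stmt.{u}) {R R' : Type u} [Ring R] [Ring R']
    (π : R →+* R') (hπ : Function.Surjective π) (reg : ∀ r : R, ∃ t, r * t * r = r)
    (N : Type u) [AddCommGroup N] [Module R' N] [Module R N] (hsm : ∀ (r : R) (x : N), r • x = π r • x)
    (hB : Module.Baer R' N) (hU : Uniform R' N) : IsPoint R (ModuleCat.of R N) := by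
  refine hPNT R N (hPUR R R' π hπ reg N hsm hB) ⟨hU.1, fun A B hA hB' hAB => ?_⟩
  let f : Submodule R N → Submodule R' N := fun C =>
    { carrier := C
      add_mem' := fun ha hb => C.add_mem ha hb
      zero_mem' := C.zero_mem
      smul_mem' := fun c x hx => by
        obtain ⟨r, rfl⟩ := hπ c
        rw [← hsm]
        exact C.smul_mem r hx }
  have hf : ∀ C : Submodule R N, C ≠ ⊥ → f C ≠ ⊥ := by
    intro C hC h
    apply hC
    rw [Submodule.eq_bot_iff] at h ⊢
    intro x hx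
    exact h x hx
  refine hU.2 (f A) (f B) (hf A hA) (hf B hB') ?_
  rw [Submodule.eq_bot_iff] at hAB ⊢
  intro x hx
  exact hAB x ⟨hx.1, hx.2⟩

theorem ONE_simple {R : Type u} [Ring R] (T : Type u) [AddCommGroup T] [Module R T]
    (hT : IsSimpleModule R T) : Uniform R T := by
  refine ⟨IsSimpleModule.nontrivial R T, fun A B hA hB => ?_⟩
  have hA' : A = ⊤ := (eq_bot_or_eq_top A).resolve_left hA
  have hB' : B = ⊤ := (eq_bot_or_eq_top B).resolve_left hB
  rw [hA', hB', inf_top_eq]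
  rw [← hA']
  exact hA

theorem ONE (hREG : REG_stmt.{u}) (hQUO : QUO_stmt.{u}) (hPUR : PUR_stmt.{u}) (hPNT : PNT_stmt.{u})
    (hOPN : OPN_stmt.{u}) (hCLO : CLO_stmt.{u}) (hTWO : TWO_stmt.{u}) (hSIM : SIM_stmt.{u})
    (hHUL : HUL_stmt.{u}) (hMNP : MNP_stmt.{u}) : ONE_stmt.{u} := by
  intro R _ S hS F G hG N hN
  obtain ⟨hNY, n, φ, ψ, hNφ, hiso⟩ := hN
  obtain ⟨ε, hε⟩ := hOPN R S hS n φ ψ
  haveI : (VanIdeal (Closed R G)).IsTwoSided := ONE_two _
  let R' : Type u := R ⧸ VanIdeal (Closed R G)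
  let π : R →+* R' := Ideal.Quotient.mk (VanIdeal (Closed R G))
  have hπ : Function.Surjective π := Ideal.Quotient.mk_surjective
  have hπ0 : ∀ a : R, π a = 0 ↔ a ∈ VanIdeal (Closed R G) := fun a => Ideal.Quotient.eq_zero_iff_mem
  have hS' : SemisimpleChain R' (fun n => (S n).map π) := hQUO R R' π hπ S hS
  have hact : ∀ a b : R, π a = π b → ∀ M : ModuleCat.{u} R, Closed R G M → ∀ x : M, a • x = b • x := by
    intro a b hab M hM x
    have h1 : a - b ∈ VanIdeal (Closed R G) := by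
      rw [← hπ0, map_sub, hab, sub_self]
    have h2 := h1 M hM x
    rw [sub_smul, sub_eq_zero] at h2
    exact h2
  obtain ⟨t, ht⟩ := hREG R' (fun n => (S n).map π) hS' (π ε)
  obtain ⟨t₀, ht₀⟩ := hπ t
  set e : R' := t * π ε with he
  have hee : e * e = e := by
    rw [he]
    calc t * π ε * (t * π ε) = t * (π ε * t * π ε) := by simp only [mul_assoc]
      _ = t * π ε := by rw [ht]
  have he0 : e ≠ 0 := by
    intro h0
    have h1 : π ε = 0 := by
      rw [← ht, mul_assoc, ← he, h0, mul_zero]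
    rw [hπ0] at h1
    obtain ⟨y, hy⟩ := (hε N).1 hNφ
    exact hy (h1 N hNY y)
  -- modules over the quotient
  have key : ∀ (M : Type u) [AddCommGroup M] [Module R' M], Module.Baer R' M → Uniform R' M →
      (∃ x : M, e • x ≠ 0) → ∀ (m : Module R M), (∀ (r : R) (x : M), m.toSMul.smul r x = π r • x) →
      Closed R G (@ModuleCat.of R _ M _ m) ∧ Nonempty ((@ModuleCat.of R _ M _ m) ≃ₗ[R] N) := by
    intro M _ _ hB hU hx m hm
    have hsm : ∀ (r : R) (x : M), r • x = π r • x := hm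
    have hpt := ONE_key hPUR hPNT π hπ (hREG R S hS) M hsm hB hU
    have hcl : Closed R G (ModuleCat.of R M) := by
      refine hCLO R S hS G (ModuleCat.of R M) hpt ?_
      intro r hr x
      change r • (x : M) = 0
      rw [hsm, (hπ0 r).2 hr, zero_smul]
    refine ⟨hcl, hiso (ModuleCat.of R M) hcl ?_⟩
    obtain ⟨x, hx⟩ := hx
    refine (hε M).2 ⟨x, fun h => hx ?_⟩
    rw [he, mul_smul, ← hsm, h, smul_zero]
  -- a division corner
  have hcorner : ∃ f' : R', f' * f' = f' ∧ e * f' = f' ∧ f' * e = f' ∧ f' ≠ 0 ∧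
      ∀ r, f' * r * f' = 0 ∨ ∃ s, s * (f' * r * f') = f' := by
    by_contra hc
    have H : ∀ f : R', f * f = f → e * f = f → f * e = f → f ≠ 0 →
        ∃ r, f * r * f ≠ 0 ∧ ∀ s, s * (f * r * f) ≠ f := by
      intro f h1 h2 h3 h4
      by_contra h5
      refine hc ⟨f, h1, h2, h3, h4, fun r => ?_⟩
      by_contra h6
      push Not at h6
      exact h5 ⟨r, h6.1, h6.2⟩
    obtain ⟨N₁, i₁, j₁, N₂, i₂, j₂, hB1, hU1, hB2, hU2, hx1, hx2, hne⟩ :=
      hTWO R' (fun n => (S n).map π) hS' e hee he0 H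
    let m₁ : Module R N₁ := Module.compHom N₁ π
    let m₂ : Module R N₂ := Module.compHom N₂ π
    obtain ⟨_, ⟨g1⟩⟩ := key N₁ hB1 hU1 hx1 m₁ (fun _ _ => rfl)
    obtain ⟨_, ⟨g2⟩⟩ := key N₂ hB2 hU2 hx2 m₂ (fun _ _ => rfl)
    apply hne
    let g : N₁ ≃ₗ[R] N₂ := g1.trans g2.symm
    exact ⟨{ toFun := g
             map_add' := g.map_add
             map_smul' := fun c x => by
               obtain ⟨r, rfl⟩ := hπ c
               exact g.map_smul r x
             invFun := g.symm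
             left_inv := g.left_inv
             right_inv := g.right_inv }⟩
  obtain ⟨f', hf1, hf2, hf3, hf4, hf5⟩ := hcorner
  obtain ⟨f, hf⟩ := hπ f'
  -- a point on which f does not vanish
  obtain ⟨T, iT, jT, hT, t₁, ht₁, ht₂⟩ := hSIM R' f' hf1 hf4
  obtain ⟨H, iH, jH, hHB, hHU, g, hg, _⟩ := hHUL R' T (ONE_simple T hT)
  have hgt : g t₁ ≠ 0 := by
    intro h
    exact ht₁ (hg (by rw [h, map_zero]))
  have hfg : f' • g t₁ = g t₁ := by rw [← map_smul, ht₂]
  have heg : e • g t₁ ≠ 0 := by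
    rw [← hfg, ← mul_smul, hf2, hfg]
    exact hgt
  let mH : Module R H := Module.compHom H π
  obtain ⟨hHcl, ⟨gH⟩⟩ := key H hHB hHU ⟨g t₁, heg⟩ mH (fun _ _ => rfl)
  have hfH : f • (g t₁ : ModuleCat.of R H) ≠ 0 := by
    change π f • g t₁ ≠ 0
    rw [hf, hfg]
    exact hgt
  have hmin : MinimalPair (Closed R G) (annPP (1 - f)) (annPP 1) := by
    refine hMNP R S hS (Closed R G) f ?_ ?_ ⟨ModuleCat.of R H, hHcl, g t₁, hfH⟩
    · intro M hM x
      rw [← mul_smul]
      exact hact _ _ (by rw [map_mul, hf, hf1]) M hM x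
    · intro r
      rcases hf5 (π r) with h | ⟨s', hs'⟩
      · left
        intro M hM x
        have : π (f * r * f) = π 0 := by rw [map_mul, map_mul, hf, h, map_zero]
        rw [hact _ _ this M hM x, zero_smul]
      · right
        obtain ⟨s, hs⟩ := hπ s'
        refine ⟨s, fun M hM x => ?_⟩
        exact hact _ _ (by rw [map_mul, map_mul, map_mul, hf, hs, hs']) M hM x
  refine ⟨1, annPP (1 - f), annPP 1, hmin, fun M hM => ⟨?_, ?_⟩⟩
  · rintro ⟨x, hx1, hx2⟩
    rw [ONE_ann] at hx1 hx2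
    rw [sub_smul, one_smul, sub_eq_zero] at hx1
    rw [one_smul] at hx2
    refine hiso M hM ((hε M).2 ⟨f • x 0, fun h => hx2 ?_⟩)
    have h1 : π (t₀ * ε * f) = π f := by
      rw [map_mul, map_mul, ht₀, hf, ← he, hf2]
    have h2 := hact _ _ h1 M hM (x 0)
    rw [mul_smul, mul_smul, h, smul_zero] at h2
    rw [hx1, ← h2]
  · rintro ⟨q⟩
    have h1 : ∃ x : M, f • x ≠ 0 := by
      refine ⟨q.symm (gH (g t₁)), fun h => hfH ?_⟩
      rw [← map_smul, ← map_smul] at h
      have h2 := (LinearEquiv.map_eq_zero_iff _).1 h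
      exact (LinearEquiv.map_eq_zero_iff _).1 h2
    obtain ⟨x, hx⟩ := h1
    refine ⟨fun _ => f • x, ?_, ?_⟩
    · rw [ONE_ann, sub_smul, one_smul, sub_eq_zero, ← mul_smul]
      exact (hact _ _ (by rw [map_mul, hf, hf1]) M hM x).symm
    · rw [ONE_ann, one_smul]
      exact hx

end Pool.Agent.helper12.ZI
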